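import Pool.Agent.Helper72.GP.GoalsB

/-!
# Project GP, packet VERT: points over the zeros of a polynomial in `x`
-/

set_option autoImplicit false

open Finset Polynomial Pool.Agent.Helper72.GP
open scoped Polynomial.Bivariate Classical

namespace Pool.Agent.Helper46.GP

theorem vert : VERT := by
  intro r t A hr ht hA h0
  have himg : A.image Prod.fst ⊆ r.roots.toFinset := by
    intro x hx
    obtain ⟨p, hp, rfl⟩ := Finset.mem_image.1 hx
    rw [Multiset.mem_toFinset, mem_roots hr]
    exact h0 p hp
  have hdeg : (A.image Prod.fst).card ≤ r.natDegree :=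
    (Finset.card_le_card himg).trans ((Multiset.toFinset_card_le _).trans (card_roots' r))
  have hfib : ∀ x ∈ A.image Prod.fst, (A.filter (fun p => p.1 = x)).card ≤ t := by
    intro x _
    by_cases h1 : (A.filter (fun p => p.1 = x)).card ≤ 1
    · omega
    · obtain ⟨a, ha, b, hb, hab⟩ := Finset.one_lt_card.1 (not_le.1 h1)
      rw [Finset.mem_filter] at ha hb
      refine (Finset.card_le_card ?_).trans (hA a ha.1 b hb.1 hab)
      intro z hz
      rw [Finset.mem_filter] at hz ⊢
      refine ⟨hz.1, ?_⟩
      unfold ColR
      rw [hz.2, ha.2, hb.2]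
      ring
  exact (Finset.card_le_mul_card_image A t hfib).trans (Nat.mul_le_mul_left t hdeg)

end Pool.Agent.Helper46.GP
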